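import Pool.Agent.N214.CP.Stm

/-!
Project CP, leaf MLIN: determinants of traces of determinants are multilinear in the vector fields.
-/

set_option autoImplicit false
set_option linter.unusedSectionVars false

open Module

namespace Pool.Agent.N767.CP

section der

variable {N K : Type} [Field N] [Field K] [Algebra ℂ N] [Algebra ℂ K] [Algebra N K]
  [IsScalarTower ℂ N K] [FiniteDimensional N K]

/-- a derivation which vanishes on `N` vanishes -/
lemma der_zero (D : Derivation ℂ K K) (h : ∀ f : N, D (algebraMap N K f) = 0) (z : K) :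
    D z = 0 := by
  have hc : CharZero N := charZero_of_injective_algebraMap (algebraMap ℂ N).injective
  let D' : Derivation N K K := Derivation.mk'
    { toFun := D
      map_add' := fun a b => D.map_add a b
      map_smul' := fun a b => by
        rw [Algebra.smul_def, D.leibniz, h, smul_zero, add_zero, RingHom.id_apply, smul_eq_mul,
          ← Algebra.smul_def] }
    (fun a b => D.leibniz a b)
  have h1 : D' (Polynomial.aeval z (minpoly N z)) =
      Polynomial.aeval z (Polynomial.derivative (minpoly N z)) • D' z := D'.map_aeval _ _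
  rw [minpoly.aeval, map_zero, smul_eq_mul] at h1
  have hz : IsIntegral N z := Algebra.IsIntegral.isIntegral z
  have h2 : Polynomial.aeval z (Polynomial.derivative (minpoly N z)) ≠ 0 :=
    (minpoly.irreducible hz).separable.aeval_derivative_ne_zero (minpoly.aeval N z)
  exact (mul_eq_zero.1 h1.symm).resolve_left h2

lemma der_ext (D1 D2 : Derivation ℂ K K)
    (h : ∀ f : N, D1 (algebraMap N K f) = D2 (algebraMap N K f)) : D1 = D2 := by
  ext z
  have h1 := der_zero (N := N) (D1 - D2) (fun f => by rw [Derivation.sub_apply, h, sub_self]) z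
  rw [Derivation.sub_apply, sub_eq_zero] at h1
  exact h1

variable (lift : Derivation ℂ N N → Derivation ℂ K K)
  (hlift : ∀ D f, lift D (algebraMap N K f) = algebraMap N K (D f))

include hlift

lemma lift_add (D1 D2 : Derivation ℂ N N) : lift (D1 + D2) = lift D1 + lift D2 := by
  apply der_ext (N := N)
  intro f
  rw [hlift, Derivation.add_apply, Derivation.add_apply, hlift, hlift, map_add]

lemma lift_smul (c : N) (D : Derivation ℂ N N) (z : K) :
    lift (c • D) z = algebraMap N K c * lift D z := by
  have h1 : lift (c • D) = algebraMap N K c • lift D := by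
    apply der_ext (N := N)
    intro f
    rw [hlift, Derivation.smul_apply, Derivation.smul_apply, hlift, smul_eq_mul, smul_eq_mul,
      map_mul]
  rw [h1, Derivation.smul_apply, smul_eq_mul]

variable {m e : ℕ} (x : Fin m → K) (h : Fin e → K)

/-- the inner matrix -/
noncomputable def BB (D : Fin (e * m) → Derivation ℂ N N) (j : Fin e) : Matrix (Fin m) (Fin m) K :=
  Matrix.of fun k l => lift (D (finProdFinEquiv (j, k))) (x l)

/-- the outer matrix -/
noncomputable def AA (D : Fin (e * m) → Derivation ℂ N N) : Matrix (Fin e) (Fin e) N :=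
  Matrix.of fun i j => Algebra.trace N K ((BB lift x D j).det * h i)

/-- the changed column -/
noncomputable def col (D : Fin (e * m) → Derivation ℂ N N) (j₀ : Fin e) (k₀ : Fin m)
    (a : Derivation ℂ N N) (i : Fin e) : N :=
  Algebra.trace N K (((BB lift x D j₀).updateRow k₀ fun l => lift a (x l)).det * h i)

omit hlift in
lemma AA_update (inst : DecidableEq (Fin (e * m))) (D : Fin (e * m) → Derivation ℂ N N)
    (j₀ : Fin e) (k₀ : Fin m) (a : Derivation ℂ N N) :
    AA lift x h (Function.update D (finProdFinEquiv (j₀, k₀)) a) =
      (AA lift x h D).updateCol j₀ (col lift x h D j₀ k₀ a) := by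
  ext i j
  by_cases hj : j = j₀
  · subst hj
    rw [Matrix.updateCol_self]
    unfold AA col
    rw [Matrix.of_apply]
    congr 3
    ext k l
    by_cases hk : k = k₀
    · subst hk
      rw [Matrix.updateRow_self]
      unfold BB
      rw [Matrix.of_apply, Function.update_self]
    · rw [Matrix.updateRow_ne hk]
      unfold BB
      rw [Matrix.of_apply, Matrix.of_apply, Function.update_of_ne]
      intro h0
      have h1 := finProdFinEquiv.injective h0
      rw [Prod.mk.injEq] at h1
      exact hk h1.2
  · rw [Matrix.updateCol_ne hj]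
    unfold AA
    rw [Matrix.of_apply, Matrix.of_apply]
    congr 3
    unfold BB
    ext k l
    rw [Matrix.of_apply, Matrix.of_apply, Function.update_of_ne]
    intro h0
    have h1 := finProdFinEquiv.injective h0
    rw [Prod.mk.injEq] at h1
    exact hj h1.1

lemma col_add (D : Fin (e * m) → Derivation ℂ N N) (j₀ : Fin e) (k₀ : Fin m)
    (a b : Derivation ℂ N N) :
    col lift x h D j₀ k₀ (a + b) = col lift x h D j₀ k₀ a + col lift x h D j₀ k₀ b := by
  funext i
  unfold col
  rw [Pi.add_apply, ← map_add, ← add_mul, ← Matrix.det_updateRow_add]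
  congr 4
  funext l
  rw [lift_add lift hlift, Derivation.add_apply]
  rfl

lemma col_smul (D : Fin (e * m) → Derivation ℂ N N) (j₀ : Fin e) (k₀ : Fin m) (c : N)
    (a : Derivation ℂ N N) :
    col lift x h D j₀ k₀ (c • a) = c • col lift x h D j₀ k₀ a := by
  funext i
  unfold col
  rw [Pi.smul_apply, ← map_smul, Algebra.smul_def, ← mul_assoc, ← Matrix.det_updateRow_smul]
  congr 4
  funext l
  rw [lift_smul lift hlift]
  rfl

end der

/-- **MLIN** -/
theorem MLIN : Pool.Agent.N214.CP.S_MLIN := by
  intro N K _ _ _ _ _ _ _ m e x h lift hlift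
  refine ⟨e * m, fun j k => finProdFinEquiv (j, k),
    { toFun := fun D => (AA lift x h D).det
      map_update_add' := ?_
      map_update_smul' := ?_ }, ?_, ?_⟩
  · intro inst D q a b
    obtain ⟨⟨j₀, k₀⟩, rfl⟩ := finProdFinEquiv.surjective q
    rw [AA_update, AA_update, AA_update, col_add lift hlift, Matrix.det_updateCol_add]
  · intro inst D q c a
    obtain ⟨⟨j₀, k₀⟩, rfl⟩ := finProdFinEquiv.surjective q
    rw [AA_update, AA_update, col_smul lift hlift, Matrix.det_updateCol_smul, smul_eq_mul]
  · intro D'
    refine ⟨fun q => D' (finProdFinEquiv.symm q).1 (finProdFinEquiv.symm q).2, fun j k => ?_⟩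
    simp
  · intro D
    rfl

end Pool.Agent.N767.CP
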